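import Pool.Agent.X10.SP.Lin3

set_option autoImplicit false

/-!
# Shifts of an integer in a short interval and a progression, all composite

An application of the theorem on composite values of linear forms of helper10
(`Pool.Agent.X10.SP.Lin.lin`).
-/

namespace Pool.Agent.X29.Sh

open Finset Filter

theorem shifts (δ : ℝ) (hδ : 0 < δ) (hδ1 : δ ≤ 1) : ∃ c : ℝ, 0 < c ∧ ∃ n₀ : ℕ, ∀ n : ℕ, n₀ ≤ n →
    ∀ q : ℕ, 0 < q → (q : ℝ) ≤ (n : ℝ) ^ δ → ∀ r : ℤ, ∀ B : Finset ℤ, (∀ b ∈ B, |b| ≤ (n : ℤ) ^ 2) →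
    (B.card : ℝ) ≤ c * ((q.totient : ℝ) / q) * (Real.log n * Real.log (Real.log n)) →
    ∀ M : ℤ, ∃ N : ℤ, N ≡ r [ZMOD q] ∧ M < N ∧ (N : ℝ) ≤ M + 2 * (n : ℝ) ^ (2 * δ) ∧
      ∀ b ∈ B, ¬ (N + b).natAbs.Prime := by
  obtain ⟨c₀, hc₀, X₀, hlin⟩ := Pool.Agent.X10.SP.Lin.lin
  refine ⟨c₀ * δ / 4, by positivity, ?_⟩
  have tlog : Tendsto (fun n : ℕ => Real.log (n : ℝ)) atTop atTop :=
    Real.tendsto_log_atTop.comp tendsto_natCast_atTop_atTop
  have tloglog : Tendsto (fun n : ℕ => Real.log (Real.log (n : ℝ))) atTop atTop := Real.tendsto_log_atTop.comp tlog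
  have tpow : ∀ a : ℝ, 0 < a → Tendsto (fun n : ℕ => (n : ℝ) ^ a) atTop atTop := fun a ha =>
    (tendsto_rpow_atTop ha).comp tendsto_natCast_atTop_atTop
  obtain ⟨Y₁, hY₁⟩ := eventually_atTop.1 ((tlog.eventually_ge_atTop (max 4 (16 / δ ^ 2))).and
    ((tloglog.eventually_ge_atTop (max 1 (2 * Real.log (2 / δ)))).and
    ((tpow δ hδ).eventually_ge_atTop (X₀ + 3))))
  refine ⟨max Y₁ 100, fun Y hY q hq hqY r B hB hBc M => ?_⟩
  obtain ⟨g1, g2, g3⟩ := hY₁ Y ((le_max_left _ _).trans hY)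
  have hY100 : 100 ≤ Y := (le_max_right _ _).trans hY
  have hY100r : (100 : ℝ) ≤ Y := by exact_mod_cast hY100
  have hY0 : (0 : ℝ) < Y := by linarith
  have hqr : (0 : ℝ) < q := by exact_mod_cast hq
  have hq1 : (1 : ℝ) ≤ q := by exact_mod_cast hq
  obtain ⟨κ, hκ⟩ : ∃ κ : ℝ, κ = (q.totient : ℝ) / q := ⟨_, rfl⟩
  have hφ : (0 : ℝ) < q.totient := by exact_mod_cast Nat.totient_pos.2 hq
  have hκ0 : 0 < κ := by rw [hκ]; positivity
  rw [← hκ] at hBc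
  obtain ⟨L, hL⟩ : ∃ L : ℝ, L = Real.log Y := ⟨_, rfl⟩
  obtain ⟨L2, hL2⟩ : ∃ L2 : ℝ, L2 = Real.log (Real.log Y) := ⟨_, rfl⟩
  rw [← hL] at g1
  rw [← hL2] at g2
  rw [← hL2, ← hL] at hBc
  have g1a : 4 ≤ L := (le_max_left _ _).trans g1
  have g1b : 16 / δ ^ 2 ≤ L := (le_max_right _ _).trans g1
  have g2a : 1 ≤ L2 := (le_max_left _ _).trans g2
  have g2b : 2 * Real.log (2 / δ) ≤ L2 := (le_max_right _ _).trans g2
  obtain ⟨P, hP⟩ : ∃ P : ℝ, P = (Y : ℝ) ^ δ := ⟨_, rfl⟩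
  rw [← hP] at g3 hqY
  have hP2 : (Y : ℝ) ^ (2 * δ) = P * P := by
    rw [hP, ← Real.rpow_add hY0]
    congr 1
    ring
  have hX₀r : (0 : ℝ) ≤ X₀ := Nat.cast_nonneg _
  have hP3 : 3 ≤ P := by linarith
  obtain ⟨X, hX⟩ : ∃ X : ℕ, X = ⌊P⌋₊ := ⟨_, rfl⟩
  have hXle : (X : ℝ) ≤ P := by rw [hX]; exact Nat.floor_le (by linarith)
  have hXge : P - 1 ≤ X := by
    rw [hX]
    linarith [Nat.lt_floor_add_one P]
  have hXX₀ : X₀ ≤ X := by
    have : (X₀ : ℝ) ≤ X := by linarith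
    exact_mod_cast this
  have hX0 : (0 : ℝ) < X := by linarith
  -- `log X ≥ δ L / 2`
  have hXP : Real.sqrt P ≤ X := by
    refine le_trans ?_ hXge
    rw [Real.sqrt_le_left (by linarith)]
    nlinarith
  have hlogX : δ / 2 * L ≤ Real.log X := by
    have h1 : δ / 2 * L = Real.log (Real.sqrt P) := by
      rw [Real.log_sqrt (by linarith), hP, Real.log_rpow hY0, hL]
      ring
    rw [h1]
    exact Real.log_le_log (Real.sqrt_pos.2 (by linarith)) hXP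
  have hdL : 0 < δ / 2 * L := by positivity
  have hloglogX : L2 / 2 ≤ Real.log (Real.log X) := by
    have h1 : Real.log (δ / 2 * L) ≤ Real.log (Real.log X) := Real.log_le_log hdL hlogX
    rw [Real.log_mul (by positivity) (by positivity)] at h1
    have h2 : Real.log (2 / δ) = - Real.log (δ / 2) := by
      rw [← Real.log_inv, inv_div]
    have h3 : Real.log L = L2 := by rw [hL, hL2]
    rw [h3] at h1
    linarith
  have hexp : ((Y : ℝ)) ^ 2 * Y ^ 2 ≤ Real.exp (Real.log X ^ 2) := by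
    have h0 : (0 : ℝ) < (Y : ℝ) ^ 2 * Y ^ 2 := by positivity
    rw [← Real.log_le_iff_le_exp h0, Real.log_mul (by positivity) (by positivity), Real.log_pow, ← hL]
    have h1 : (δ / 2 * L) ^ 2 ≤ Real.log X ^ 2 := pow_le_pow_left₀ hdL.le hlogX 2
    refine le_trans ?_ h1
    have h2 : 16 ≤ δ ^ 2 * L := by
      rw [div_le_iff₀ (by positivity)] at g1b
      linarith
    have h3 : (δ / 2 * L) ^ 2 = δ ^ 2 * L * L / 4 := by ring
    rw [h3]
    push_cast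
    nlinarith
  have hPY : P ≤ Y := by
    rw [hP]
    calc (Y : ℝ) ^ δ ≤ (Y : ℝ) ^ (1 : ℝ) := Real.rpow_le_rpow_of_exponent_le (by linarith) hδ1
      _ = Y := Real.rpow_one _
  have hYq : (q : ℝ) ≤ Y := hqY.trans hPY
  have hY2 : (Y : ℝ) ≤ (Y : ℝ) ^ 2 := by nlinarith
  have hY4 : (Y : ℝ) + (Y : ℝ) ^ 2 ≤ (Y : ℝ) ^ 2 * (Y : ℝ) ^ 2 := by
    have h1 : (2 : ℝ) ≤ (Y : ℝ) ^ 2 := by linarith
    have h2 := mul_le_mul_of_nonneg_right h1 (sq_nonneg (Y : ℝ))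
    linarith
  have h5Yexp : (Y : ℝ) + (Y : ℝ) ^ 2 ≤ Real.exp (Real.log X ^ 2) := hY4.trans hexp
  have hYexp : (Y : ℝ) ≤ Real.exp (Real.log X ^ 2) := by
    refine le_trans ?_ h5Yexp
    nlinarith
  obtain ⟨k, hk⟩ : ∃ k : ℕ, k = B.card := ⟨_, rfl⟩
  obtain ⟨e⟩ : Nonempty (B ≃ Fin k) := ⟨B.equivFin.trans (finCongr hk.symm)⟩
  have hqZ : (0 : ℤ) < q := by exact_mod_cast hq
  have hr0 : 0 ≤ r % q := Int.emod_nonneg _ hqZ.ne'
  have hrq : r % q < q := Int.emod_lt_of_pos _ hqZ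
  have hsum : ∑ i : Fin k, (((fun _ => (q : ℤ)) i : ℤ).natAbs : ℝ) /
      (Nat.totient ((fun _ : Fin k => (q : ℤ)) i).natAbs : ℝ) ≤ c₀ * (Real.log X * Real.log (Real.log X)) := by
    simp only [Int.natAbs_natCast, sum_const, card_univ, Fintype.card_fin, nsmul_eq_mul]
    rw [hk]
    have h1 : (q : ℝ) / q.totient = 1 / κ := by rw [hκ, one_div_div]
    rw [h1]
    have h2 : δ / 4 * (L * L2) ≤ Real.log X * Real.log (Real.log X) := by
      calc δ / 4 * (L * L2) = (δ / 2 * L) * (L2 / 2) := by ring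
        _ ≤ _ := mul_le_mul hlogX hloglogX (by linarith) (hdL.le.trans hlogX)
    refine le_trans ?_ (mul_le_mul_of_nonneg_left h2 hc₀.le)
    rw [mul_one_div, div_le_iff₀ hκ0]
    refine hBc.trans (le_of_eq (by ring))
  have ha0 : ∀ i : Fin k, (fun _ : Fin k => (q : ℤ)) i ≠ 0 := fun _ => hqZ.ne'
  have ha1 : ∀ i : Fin k, (|(fun _ : Fin k => (q : ℤ)) i| : ℝ) ≤ Real.exp (Real.log X ^ 2) := fun _ => by
    have h1 : |((q : ℤ) : ℝ)| = (q : ℝ) := by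
      rw [Int.cast_natCast, abs_of_pos hqr]
    show |((q : ℤ) : ℝ)| ≤ _
    rw [h1]
    exact hYq.trans hYexp
  have hb1 : ∀ i : Fin k, (|(fun i : Fin k => r % q + (e.symm i : ℤ)) i| : ℝ) ≤
      Real.exp (Real.log X ^ 2) := by
    intro i
    have h1 : |(e.symm i : ℤ)| ≤ (Y : ℤ) ^ 2 := hB _ (e.symm i).2
    have h2 : |r % q + (e.symm i : ℤ)| ≤ q + (Y : ℤ) ^ 2 := by
      refine (abs_add_le _ _).trans ?_
      rw [abs_of_nonneg hr0]
      linarith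
    refine le_trans ?_ h5Yexp
    have h3 : ((|r % q + (e.symm i : ℤ)| : ℤ) : ℝ) ≤ ((q + (Y : ℤ) ^ 2 : ℤ) : ℝ) := by exact_mod_cast h2
    push_cast at h3 ⊢
    linarith
  obtain ⟨n, hn1, hn2, hn3⟩ := hlin X hXX₀ k (fun _ => (q : ℤ))
    (fun i => r % q + (e.symm i : ℤ)) ha0 ha1 hb1 hsum (M / q)
  refine ⟨q * n + r % q, ?_, ?_, ?_, ?_⟩
  · unfold Int.ModEq
    rw [Int.mul_add_emod_self_left, Int.emod_emod_of_dvd _ (dvd_refl _)]
  · have h2 := Int.mul_ediv_add_emod M q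
    have h3 := Int.emod_lt_of_pos M hqZ
    have h4 : (q : ℤ) * (M / q + 1) ≤ q * n := mul_le_mul_of_nonneg_left hn1 hqZ.le
    have h5 : (q : ℤ) * (M / q + 1) = q * (M / q) + q := by ring
    linarith
  · have h1 : (q : ℤ) * n ≤ q * (M / q) + q * X := by
      rw [← mul_add]
      exact mul_le_mul_of_nonneg_left hn2 hqZ.le
    have h2 : (q : ℤ) * (M / q) ≤ M := by
      have := Int.mul_ediv_add_emod M q
      have := Int.emod_nonneg M hqZ.ne'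
      linarith
    have h3 : (q : ℤ) * n + r % q ≤ M + q * X + q := by linarith
    have h4 : (((q : ℤ) * n + r % q : ℤ) : ℝ) ≤ ((M + q * X + q : ℤ) : ℝ) := by exact_mod_cast h3
    refine h4.trans ?_
    push_cast
    rw [hP2]
    nlinarith
  · intro b hb
    have h1 := hn3 (e ⟨b, hb⟩)
    simp only [Equiv.symm_apply_apply] at h1
    have h2 : (q : ℤ) * n + (r % q + b) = (q : ℤ) * n + r % q + b := by ring
    rwa [h2] at h1

end Pool.Agent.X29.Sh
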